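import Pool.Agent.H240.GU.Def5
import Pool.Agent.H356.GU.Fl

/-! # `GV-3`: flattening near an approximate geodesic, with uniform constants (helper167) -/

set_option autoImplicit false
set_option linter.all false
set_option linter.unusedSectionVars false

open Set Filter Topology MeasureTheory
open scoped ContDiff Real

noncomputable section

namespace Pool.Agent.H167.GV

open Pool.Agent.Y262.EG Pool.Agent.H240.AL Pool.Agent.H240.AL.I2
open Pool.Agent.H240.GU Pool.Agent.H240.GV Pool.Agent.H356.GU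

theorem stFl2 : StFl2 := by
  intro k K hk hK
  obtain ⟨N, N1, N2, κ, C, Ns, N1s, hN, hN1, Nz, Nn, N1l, N1u, N2l, N2u, Na, hκ, hC⟩ := exN
  have hB0 : 0 ≤ 100 * C / k * ((K + k + 1) ^ 2 + (K + k) ^ 2) := by positivity
  refine ⟨K + k + 2 + 100 * C / k * ((K + k + 1) ^ 2 + (K + k) ^ 2), k / 100, by positivity,
    by positivity, ?_⟩
  intro Φ x0 δ e0 hδ hδ1 he0 heθ hBd
  obtain ⟨hs, hp, hlap, hlow, hupp, hgrad⟩ := hBd
  set B := K + k + 2 + 100 * C / k * ((K + k + 1) ^ 2 + (K + k) ^ 2) with hB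
  have hB1 : K + k + 2 ≤ B := by rw [hB]; linarith
  have hBp : 0 < B := by linarith
  have hδ2 : 0 < δ ^ 2 := by positivity
  have hδδ : δ ^ 2 ≤ δ := by nlinarith
  set D := k * δ ^ 2 with hD
  have hDp : 0 < D := by positivity
  have hDδ : D ≤ k * δ := by
    rw [hD]; exact mul_le_mul_of_nonneg_left hδδ hk.le
  have heD : e0 ≤ D / 100 := by
    have : k / 100 * δ ^ 2 = D / 100 := by rw [hD]; ring
    linarith
  set b := D / 20 with hb
  set e := D / 100 with he
  set r := δ * (k / (16 * (K + k))) with hr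
  have hbp : 0 < b := by rw [hb]; positivity
  have hep : 0 < e := by rw [he]; positivity
  have hrp : 0 < r := by rw [hr]; positivity
  have hKk : 0 < K + k := by linarith
  have hq1 : k / (16 * (K + k)) ≤ 1 / 16 := by
    rw [div_le_div_iff₀ (by positivity) (by norm_num)]
    nlinarith
  have hrδ : r ≤ δ / 16 := by
    have h := mul_le_mul_of_nonneg_left hq1 hδ.le
    rw [hr]; linarith
  have hKr : K * r ^ 2 ≤ D / 256 := by
    have h1 : K * r ^ 2 = (D / 256) * (K * k / (K + k) ^ 2) := by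
      rw [hr, hD]; field_simp; ring
    have h2 : K * k / (K + k) ^ 2 ≤ 1 := by
      rw [div_le_one (by positivity)]
      nlinarith [mul_pos hK hk, sq_nonneg K, sq_nonneg k]
    rw [h1]
    have h3 : (D / 256) * (K * k / (K + k) ^ 2) ≤ (D / 256) * 1 := by gcongr
    linarith
  set η := min e δ with hη
  have hηp : 0 < η := by rw [hη]; positivity
  have hη1 : η ≤ e := min_le_left _ _
  have hη2 : η ≤ δ := min_le_right _ _
  obtain ⟨β, β1, β2, βs, β1s, hβ, hβ1, βz, β2p, β2n, βb, β1b, β2b⟩ :=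
    exB (r := r) (A := δ) (η := η) hrp hδ hηp
  set w : ℂ → ℝ := fun z => e * N ((Φ z - b - β (z.re - x0)) / e) with hw
  have tsq : ∀ z : ℂ, z ∈ Sx x0 δ → (z.re - x0) ^ 2 ≤ δ ^ 2 := by
    intro z hz
    rw [← sq_abs (z.re - x0)]
    exact pow_le_pow_left₀ (abs_nonneg _) (le_of_lt (mem_Sx.1 hz)) 2
  have wz : ∀ z ∈ Sx x0 δ, δ / 2 ≤ |z.re - x0| → w z = 0 := by
    intro z hz h1
    have h3 := hlow z hz
    have h4 := (abs_le.1 (βb (z.re - x0) (le_of_lt (mem_Sx.1 hz)))).2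
    have h5 : (δ / 2) ^ 2 ≤ (z.re - x0) ^ 2 := by
      rw [← sq_abs (z.re - x0)]
      exact pow_le_pow_left₀ (by positivity) h1 2
    have h6 : k * (δ / 2) ^ 2 ≤ k * (z.re - x0) ^ 2 := by gcongr
    have h7 : k * (δ / 2) ^ 2 = D / 4 := by rw [hD]; ring
    show e * N ((Φ z - b - β (z.re - x0)) / e) = 0
    rw [Nz, mul_zero]
    rw [le_div_iff₀ hep, one_mul]
    linarith
  have Ws : ContDiffOn ℝ ∞ w (Sx x0 δ) := by
    have h1 : ContDiffOn ℝ ∞ (fun z : ℂ => β (z.re - x0)) (Sx x0 δ) := by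
      refine (βs.comp (?_ : ContDiff ℝ ∞ fun z : ℂ => z.re - x0)).contDiffOn
      exact Complex.reCLM.contDiff.sub contDiff_const
    have h2 : ContDiffOn ℝ ∞ (fun z : ℂ => (Φ z - b - β (z.re - x0)) / e) (Sx x0 δ) :=
      ((hs.sub contDiffOn_const).sub h1).div_const e
    exact contDiffOn_const.mul (Ns.comp_contDiffOn h2)
  have sizeΦ : ∀ z ∈ Sx x0 δ, |Φ z| ≤ K * δ + e ∧ |px Φ z| ≤ K * δ + e ∧
      |py Φ z| ≤ K * δ + e := by
    intro z hz
    have h1 := hlow z hz
    have h2 := hupp z hz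
    obtain ⟨h3, h4⟩ := hgrad z hz
    have h5 := tsq z hz
    have h6 : K * (z.re - x0) ^ 2 ≤ K * δ := by
      apply mul_le_mul_of_nonneg_left (h5.trans hδδ) hK.le
    have h7 : K * |z.re - x0| ≤ K * δ :=
      mul_le_mul_of_nonneg_left (le_of_lt (mem_Sx.1 hz)) hK.le
    have h8 : 0 ≤ k * (z.re - x0) ^ 2 := by positivity
    have h9 : 0 ≤ K * δ := by positivity
    refine ⟨?_, by linarith, by linarith⟩
    rw [abs_le]
    constructor
    · linarith
    · linarith
  have LW : ∀ z ∈ Sx x0 δ, Lp2 (fun z => Φ z + w z) z =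
      (1 + N1 ((Φ z - b - β (z.re - x0)) / e)) * (px (px Φ) z + py (py Φ) z) -
      N1 ((Φ z - b - β (z.re - x0)) / e) * β2 (z.re - x0) +
      N2 ((Φ z - b - β (z.re - x0)) / e) / e *
        ((px Φ z - β1 (z.re - x0)) ^ 2 + (py Φ z) ^ 2) := fun z hz =>
    (derW (b := b) hep hs hN hN1 hβ hβ1 hz).2
  have hkδ : 0 < k * δ := by positivity
  have hKδ : 0 < K * δ := by positivity
  have heδ : e ≤ k * δ / 100 := by rw [he]; linarith
  have hbδ : b ≤ k * δ / 20 := by rw [hb]; linarith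
  have hBδ : (K + k + 2) * δ ≤ B * δ := mul_le_mul_of_nonneg_right hB1 hδ.le
  have hBδ' : (K + k + 2) * δ = K * δ + k * δ + 2 * δ := by ring
  refine ⟨w, -(b + e * κ), r, ⟨⟨Ws, ?_, ⟨δ / 2, by linarith, wz⟩⟩, hrp, by linarith, ?_, ?_⟩, ?_, ?_,
    wz, ?_⟩
  · intro z hz
    show e * N ((Φ (z + 2 * π * Complex.I) - b - β ((z + 2 * π * Complex.I).re - x0)) / e) =
      e * N ((Φ z - b - β (z.re - x0)) / e)
    rw [shift_re, hp z hz]
  · intro z h
    have hz : z ∈ Sx x0 δ := mem_Sx.2 (by linarith)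
    have hq := hupp z hz
    have h5 : (z.re - x0) ^ 2 ≤ r ^ 2 := by
      rw [← sq_abs (z.re - x0)]
      exact pow_le_pow_left₀ (abs_nonneg _) h 2
    have h6 : K * (z.re - x0) ^ 2 ≤ K * r ^ 2 := by gcongr
    show Φ z + e * N ((Φ z - b - β (z.re - x0)) / e) + -(b + e * κ) = 0
    rw [βz _ h, sub_zero, Nn]
    · field_simp
      ring
    · rw [div_le_iff₀ hep]
      linarith
  · intro z h1 h2
    have hz : z ∈ Sx x0 δ := mem_Sx.2 h2
    have hLz : 0 < px (px Φ) z + py (py Φ) z := (hlap z hz).1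
    rw [LW z hz]
    have hl := N1l ((Φ z - b - β (z.re - x0)) / e)
    have hu := N1u ((Φ z - b - β (z.re - x0)) / e)
    have h3 := comb (m := 1 + N1 ((Φ z - b - β (z.re - x0)) / e)) (by linarith) (by linarith) hLz
      (β2p _ h1)
    have h4 : 0 ≤ N2 ((Φ z - b - β (z.re - x0)) / e) / e *
      ((px Φ z - β1 (z.re - x0)) ^ 2 + (py Φ z) ^ 2) :=
      mul_nonneg (div_nonneg (N2l _) hep.le) (by positivity)
    have h5 : (1 - (1 + N1 ((Φ z - b - β (z.re - x0)) / e))) * β2 (z.re - x0) =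
      -(N1 ((Φ z - b - β (z.re - x0)) / e) * β2 (z.re - x0)) := by ring
    rw [h5] at h3
    linarith
  · rw [abs_neg]
    have h1 : |b + e * κ| ≤ |b| + |e * κ| := abs_add_le _ _
    have h2 : |e * κ| ≤ e * 3 := by
      rw [abs_mul, abs_of_pos hep]
      gcongr
    rw [abs_of_pos hbp] at h1
    linarith
  · intro z hz
    obtain ⟨s0, s1, s2⟩ := sizeΦ z hz
    have hd : HD w z (N1 ((Φ z - b - β (z.re - x0)) / e) * (px Φ z - β1 (z.re - x0)))
      (N1 ((Φ z - b - β (z.re - x0)) / e) * py Φ z) :=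
      (derW (b := b) hep hs hN hN1 hβ hβ1 hz).1
    have hn : |N1 ((Φ z - b - β (z.re - x0)) / e)| ≤ 1 := by
      rw [abs_le]
      exact ⟨N1l _, (N1u _).trans zero_le_one⟩
    have b0 := βb (z.re - x0) (le_of_lt (mem_Sx.1 hz))
    have b1 := β1b (z.re - x0) (le_of_lt (mem_Sx.1 hz))
    refine ⟨?_, ?_, ?_⟩
    · show |e * N ((Φ z - b - β (z.re - x0)) / e)| ≤ B * δ
      rw [abs_mul, abs_of_pos hep]
      have h1 := Na ((Φ z - b - β (z.re - x0)) / e)
      have h2 : e * |N ((Φ z - b - β (z.re - x0)) / e)| ≤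
        e * (|(Φ z - b - β (z.re - x0)) / e| + 1) := by gcongr
      have h3 : e * (|(Φ z - b - β (z.re - x0)) / e| + 1) = |Φ z - b - β (z.re - x0)| + e := by
        rw [abs_div, abs_of_pos hep]
        field_simp
      have h4 : |Φ z - b - β (z.re - x0)| ≤ |Φ z| + b + η := by
        rw [abs_le]
        have := neg_abs_le (Φ z)
        have := le_abs_self (Φ z)
        constructor
        · linarith [(abs_le.1 b0).1, (abs_le.1 b0).2]
        · linarith [(abs_le.1 b0).1, (abs_le.1 b0).2]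
      linarith
    · rw [hd.2.1, abs_mul]
      have h1 : |px Φ z - β1 (z.re - x0)| ≤ |px Φ z| + |β1 (z.re - x0)| := abs_sub _ _
      have h2 : |N1 ((Φ z - b - β (z.re - x0)) / e)| * |px Φ z - β1 (z.re - x0)| ≤
        1 * |px Φ z - β1 (z.re - x0)| := by gcongr
      linarith
    · rw [hd.2.2, abs_mul]
      have h2 : |N1 ((Φ z - b - β (z.re - x0)) / e)| * |py Φ z| ≤ 1 * |py Φ z| := by gcongr
      linarith
  · intro z hz _
    have hKz : px (px Φ) z + py (py Φ) z ≤ K := (hlap z hz).2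
    have hLz : 0 < px (px Φ) z + py (py Φ) z := (hlap z hz).1
    rw [LW z hz]
    obtain ⟨s0, s1, s2⟩ := sizeΦ z hz
    have hl := N1l ((Φ z - b - β (z.re - x0)) / e)
    have hu := N1u ((Φ z - b - β (z.re - x0)) / e)
    have b1 := β1b (z.re - x0) (le_of_lt (mem_Sx.1 hz))
    have b2 := (abs_le.1 (β2b (z.re - x0) (le_of_lt (mem_Sx.1 hz)))).2
    have b2' := β2n (z.re - x0)
    have q1 : (1 + N1 ((Φ z - b - β (z.re - x0)) / e)) * (px (px Φ) z + py (py Φ) z) ≤ K := by
      calc (1 + N1 ((Φ z - b - β (z.re - x0)) / e)) * (px (px Φ) z + py (py Φ) z)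
          ≤ 1 * (px (px Φ) z + py (py Φ) z) := by
            apply mul_le_mul_of_nonneg_right (by linarith) hLz.le
        _ ≤ K := by rw [one_mul]; exact hKz
    have q2 : -(N1 ((Φ z - b - β (z.re - x0)) / e) * β2 (z.re - x0)) ≤ 1 := by
      calc -(N1 ((Φ z - b - β (z.re - x0)) / e) * β2 (z.re - x0))
          = -N1 ((Φ z - b - β (z.re - x0)) / e) * β2 (z.re - x0) := by ring
        _ ≤ 1 * β2 (z.re - x0) := by
            apply mul_le_mul_of_nonneg_right (by linarith) b2'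
        _ ≤ 1 := by linarith
    have q3 : (px Φ z - β1 (z.re - x0)) ^ 2 + (py Φ z) ^ 2 ≤
        δ ^ 2 * ((K + k + 1) ^ 2 + (K + k) ^ 2) := by
      have h1 : |px Φ z - β1 (z.re - x0)| ≤ (K + k + 1) * δ := by
        have h0 : |px Φ z - β1 (z.re - x0)| ≤ |px Φ z| + |β1 (z.re - x0)| := abs_sub _ _
        have h0' : (K + k + 1) * δ = K * δ + k * δ + δ := by ring
        linarith
      have h1' : |py Φ z| ≤ (K + k) * δ := by
        have h0' : (K + k) * δ = K * δ + k * δ := by ring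
        linarith
      have h2 : (px Φ z - β1 (z.re - x0)) ^ 2 ≤ ((K + k + 1) * δ) ^ 2 := by
        rw [← sq_abs (px Φ z - β1 (z.re - x0))]
        exact pow_le_pow_left₀ (abs_nonneg _) h1 2
      have h3 : (py Φ z) ^ 2 ≤ ((K + k) * δ) ^ 2 := by
        rw [← sq_abs (py Φ z)]
        exact pow_le_pow_left₀ (abs_nonneg _) h1' 2
      calc _ ≤ ((K + k + 1) * δ) ^ 2 + ((K + k) * δ) ^ 2 := add_le_add h2 h3
        _ = _ := by ring
    have q4 : N2 ((Φ z - b - β (z.re - x0)) / e) / e *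
        ((px Φ z - β1 (z.re - x0)) ^ 2 + (py Φ z) ^ 2) ≤
        100 * C / k * ((K + k + 1) ^ 2 + (K + k) ^ 2) := by
      calc N2 ((Φ z - b - β (z.re - x0)) / e) / e *
        ((px Φ z - β1 (z.re - x0)) ^ 2 + (py Φ z) ^ 2) ≤
          C / e * (δ ^ 2 * ((K + k + 1) ^ 2 + (K + k) ^ 2)) := by
            refine mul_le_mul ?_ q3 (by positivity) (by positivity)
            exact div_le_div_of_nonneg_right (N2u _) hep.le
        _ = 100 * C / k * ((K + k + 1) ^ 2 + (K + k) ^ 2) := by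
            rw [he, hD]; field_simp
    rw [hB]
    linarith

end Pool.Agent.H167.GV
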